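import Pool.Agent.P.MP_7c03a7_pr.Main

/-! Long range percolation on a countable group: isoperimetric dimension greater than one
implies a finite critical parameter. -/

namespace Pool.Agent.P.MP_7c03a7_pr.Old

open Pool.Agent.P.MP_7c03a7_pr

theorem dimGtOne {Γ : Type*} [Group Γ] [Countable Γ] (μ : PMF Γ) (hμ : ∀ g, μ g⁻¹ = μ g)
    (_hgen : Subgroup.closure μ.support = ⊤) (hdim : 1 < isoDim μ) :
    lambdaC μ hμ < ⊤ :=
  lambdaC_lt_top μ hμ hdim

end Pool.Agent.P.MP_7c03a7_pr.Old
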